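import Mathlib
import Pool.Agent.Lib.helper24.Succ

set_option autoImplicit false

namespace Pool.Agent.H.MP_718903_gt

open Set Filter Topology
open Cardinal hiding univ
open Pool.Agent.Lib.helper24.Succ

/-- topology from a decreasing sequence of basic sets at each point -/
def mk {X : Type} (B : X → ℕ → Set X) (hB : ∀ x, Antitone (B x)) : TopologicalSpace X where
  IsOpen U := ∀ x ∈ U, ∃ n, B x n ⊆ U
  isOpen_univ := fun _ _ => ⟨0, subset_univ _⟩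
  isOpen_inter := fun s t hs ht x hx => by
    obtain ⟨n, hn⟩ := hs x hx.1
    obtain ⟨m, hm⟩ := ht x hx.2
    exact ⟨max n m, subset_inter ((hB x (le_max_left _ _)).trans hn)
      ((hB x (le_max_right _ _)).trans hm)⟩
  isOpen_sUnion := fun s hs x ⟨t, ht, hx⟩ => by
    obtain ⟨n, hn⟩ := hs t ht x hx
    exact ⟨n, hn.trans (subset_sUnion_of_mem ht)⟩

lemma nice {X : Type} [TopologicalSpace X] (B : X → ℕ → Set X)
    (h0 : ∀ U, IsOpen U ↔ ∀ x ∈ U, ∃ n, B x n ⊆ U) (h1 : ∀ x n, x ∈ B x n)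
    (h2 : ∀ x n, ∀ y ∈ B x n, ∃ m, B y m ⊆ B x n)
    (h3 : ∀ x n, ∀ y ∉ B x n, ∃ m, Disjoint (B y m) (B x n))
    (h4 : ∀ x y, x ≠ y → ∃ n, y ∉ B x n) :
    T35Space X ∧ FirstCountableTopology X ∧ TopologicalSpace.IsTopologicalBasis
      {U : Set X | IsClopen U} := by
  have ho : ∀ x n, IsOpen (B x n) := fun x n => (h0 _).2 (h2 x n)
  have hc : ∀ x n, IsClopen (B x n) := fun x n => ⟨isOpen_compl_iff.1 ((h0 _).2 fun y hy => by
    obtain ⟨m, hm⟩ := h3 x n y hy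
    exact ⟨m, hm.subset_compl_right⟩), ho x n⟩
  have hb : ∀ x, (𝓝 x).HasBasis (fun _ => True) (B x) := fun x => ⟨fun t => ⟨fun ht => by
    obtain ⟨U, hU, hUo, hx⟩ := mem_nhds_iff.1 ht
    obtain ⟨n, hn⟩ := (h0 U).1 hUo x hx
    exact ⟨n, trivial, hn.trans hU⟩, fun ⟨n, _, hn⟩ =>
      mem_of_superset ((ho x n).mem_nhds (h1 x n)) hn⟩⟩
  haveI : T0Space X := (t0Space_iff_inseparable X).2 fun x y hxy => by
    by_contra h
    obtain ⟨n, hn⟩ := h4 x y h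
    exact hn ((hxy.mem_open_iff (ho x n)).1 (h1 x n))
  haveI : CompletelyRegularSpace X := ⟨fun x K hK hx => by
    classical
    obtain ⟨n, hn⟩ := (h0 _).1 hK.isOpen_compl x hx
    refine ⟨fun y => if y ∈ B x n then 0 else 1, ?_, by simp [h1], fun y hy => ?_⟩
    · exact Continuous.if (fun a ha => by
        rw [show {x_1 | x_1 ∈ B x n} = B x n from rfl, (hc x n).frontier_eq] at ha
        exact ha.elim) continuous_const continuous_const
    · exact if_neg fun h => hn h hy⟩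
  refine ⟨{}, ⟨fun x => (hb x).isCountablyGenerated⟩, ?_⟩
  refine TopologicalSpace.isTopologicalBasis_of_isOpen_of_nhds (fun _ h => h.2) fun x U hx hU => ?_
  obtain ⟨n, hn⟩ := (h0 U).1 hU x hx
  exact ⟨B x n, hc x n, h1 x n, hn⟩

abbrev K := ℕ × ℤ

/-- nodes of the full tree over `L` -/
def N (L : Type) [LinearOrder L] : Type := {p : L × (L → K) // ∀ γ, p.1 ≤ γ → p.2 γ = 0}

section tree
variable {L : Type} [LinearOrder L]

def lt (p q : N L) : Prop := p.1.1 < q.1.1 ∧ ∀ γ, γ < p.1.1 → q.1.2 γ = p.1.2 γ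

lemma lt.trans {p q r : N L} (h : lt p q) (h' : lt q r) : lt p r :=
  ⟨h.1.trans h'.1, fun γ hγ => (h'.2 γ (hγ.trans h.1)).trans (h.2 γ hγ)⟩

lemma lt.lab {p q r : N L} (h : lt p q) (h' : lt q r) : r.1.2 p.1.1 = q.1.2 p.1.1 :=
  h'.2 _ h.1

lemma lt.irr {p : N L} (h : lt p p) : False := lt_irrefl _ h.1

lemma lt.tri {p q r : N L} (h : lt p r) (h' : lt q r) : p = q ∨ lt p q ∨ lt q p := by
  rcases lt_trichotomy p.1.1 q.1.1 with h1 | h1 | h1
  · exact Or.inr (Or.inl ⟨h1, fun γ hγ => (h'.2 γ (hγ.trans h1)).symm.trans (h.2 γ hγ)⟩)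
  · refine Or.inl (Subtype.ext (Prod.ext h1 (funext fun γ => ?_)))
    rcases lt_or_ge γ p.1.1 with h2 | h2
    · exact (h.2 γ h2).symm.trans (h'.2 γ (h1 ▸ h2))
    · exact (p.2 γ h2).trans (q.2 γ (h1 ▸ h2)).symm
  · exact Or.inr (Or.inr ⟨h1, fun γ hγ => (h.2 γ (hγ.trans h1)).symm.trans (h'.2 γ hγ)⟩)

def cone (p : N L) (S : Set K) : Set (N L) := {q | lt p q ∧ q.1.2 p.1.1 ∈ S}

def U (p : N L) (n : ℕ) : Set (N L) := insert p (cone p {i | n ≤ i.1})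

lemma cone_up {p q r : N L} {S : Set K} (h : q ∈ cone p S) (h' : lt q r) : r ∈ cone p S :=
  ⟨h.1.trans h', by rw [h.1.lab h']; exact h.2⟩

lemma U_cone {p q : N L} {S : Set K} (h : q ∈ cone p S) (m : ℕ) : U q m ⊆ cone p S := by
  rintro r (rfl | hr)
  · exact h
  · exact cone_up h hr.1

lemma U_anti (p : N L) : Antitone (U p) := fun _ _ h =>
  insert_subset_insert fun _ hq => ⟨hq.1, h.trans hq.2⟩

lemma U_sub {p q : N L} {n : ℕ} (h : q ∈ U p n) : U q n ⊆ U p n := by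
  rcases h with rfl | h
  · exact subset_rfl
  · exact (U_cone h n).trans (subset_insert _ _)

lemma disj {p q : N L} {S : Set K} (h : q ∉ insert p (cone p S)) :
    ∃ m, Disjoint (U q m) (insert p (cone p S)) := by
  rcases em (lt q p) with h1 | h1
  · refine ⟨(p.1.2 q.1.1).1 + 1, Set.disjoint_left.2 ?_⟩
    rintro r (rfl | hr) hr'
    · exact h hr'
    · have h2 : (p.1.2 q.1.1).1 + 1 ≤ (r.1.2 q.1.1).1 := hr.2
      rcases hr' with rfl | hr'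
      · omega
      · rw [h1.lab hr'.1] at h2
        omega
  · refine ⟨0, Set.disjoint_left.2 ?_⟩
    rintro r (rfl | hr) hr'
    · exact h hr'
    · rcases hr' with rfl | hr'
      · exact h1 hr.1
      · rcases hr'.1.tri hr.1 with h2 | h2 | h2
        · exact h (Or.inl h2.symm)
        · exact h (Or.inr ⟨h2, by rw [← h2.lab hr.1]; exact hr'.2⟩)
        · exact h1 h2

lemma succ (p : N L) {β : L} (h : p.1.1 < β) (i : K) :
    ∃ q : N L, q.1.1 = β ∧ lt p q ∧ q.1.2 p.1.1 = i := by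
  classical
  refine ⟨⟨(β, Function.update p.1.2 p.1.1 i), fun γ hγ => ?_⟩, rfl, ⟨h, fun γ hγ => ?_⟩, ?_⟩
  · have h2 : p.1.1 < γ := h.trans_le hγ
    show Function.update p.1.2 p.1.1 i γ = 0
    rw [Function.update_of_ne h2.ne']
    exact p.2 γ h2.le
  · exact Function.update_of_ne hγ.ne _ _
  · exact Function.update_self _ _ _

lemma U_sep {p q : N L} (h : p ≠ q) : ∃ n, q ∉ U p n := by
  refine ⟨(q.1.2 p.1.1).1 + 1, ?_⟩
  rintro (h1 | h1)
  · exact h h1.symm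
  · have h2 : (q.1.2 p.1.1).1 + 1 ≤ (q.1.2 p.1.1).1 := h1.2
    omega

end tree

instance : Countable (N ℕ) := by
  refine Function.Injective.countable
    (f := fun p : N ℕ => (p.1.1, List.ofFn fun i : Fin p.1.1 => p.1.2 i)) ?_
  rintro ⟨⟨k, f⟩, hf⟩ ⟨⟨l, g⟩, hg⟩ h
  obtain ⟨rfl, h2⟩ := Prod.ext_iff.1 h
  have h3 := List.ofFn_injective h2
  refine Subtype.ext (Prod.ext rfl (funext fun γ => ?_))
  rcases lt_or_ge γ k with h4 | h4
  · exact congrFun h3 ⟨γ, h4⟩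
  · exact (hf γ h4).trans (hg γ h4).symm

lemma chain (t : ℕ → N (W ℵ₀)) (h : ∀ j, lt (t j) (t (j + 1))) : ∃ s, ∀ j, lt (t j) s := by
  classical
  have h1 : ∀ i j, i < j → lt (t i) (t j) := fun i j hij => by
    induction hij with
    | refl => exact h i
    | step _ ih => exact ih.trans (h _)
  obtain ⟨β, hβ⟩ := bdd_range (c := ℵ₀) le_rfl (J := ℕ) mk_le_aleph0 fun j => (t j).1.1
  refine ⟨⟨(β, fun γ => if h : ∃ j, γ < (t j).1.1 then (t h.choose).1.2 γ else 0),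
    fun γ hγ => dif_neg fun ⟨j, hj⟩ => lt_irrefl _ ((hj.trans (hβ j)).trans_le hγ)⟩,
    fun j => ⟨hβ j, fun γ hγ => ?_⟩⟩
  have h2 : ∃ j, γ < (t j).1.1 := ⟨j, hγ⟩
  refine (dif_pos h2).trans ?_
  rcases lt_trichotomy h2.choose j with h3 | h3 | h3
  · exact ((h1 _ _ h3).2 γ h2.choose_spec).symm
  · rw [h3]
  · exact (h1 _ _ h3).2 γ hγ

lemma ad : ∃ a : W ℵ₀ → ℕ → K, (∀ α n, (a α n).1 = n) ∧
    ∀ α β, α ≠ β → ∃ m, ∀ n, m ≤ n → a α n ≠ a β n := by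
  obtain ⟨r⟩ : Nonempty (W ℵ₀ ↪ ℝ) := by
    rw [← Cardinal.le_def, mk_W, mk_real]
    exact Order.succ_le_of_lt aleph0_lt_continuum
  refine ⟨fun α n => (n, ⌊(n : ℝ) * r α⌋), fun _ _ => rfl, fun α β h => ?_⟩
  have h1 : 0 < |r α - r β| := abs_pos.2 (sub_ne_zero.2 (r.injective.ne h))
  obtain ⟨m, hm⟩ := exists_nat_ge (1 / |r α - r β|)
  refine ⟨m, fun n hn h2 => ?_⟩
  have h3 := Int.abs_sub_lt_one_of_floor_eq_floor (Prod.ext_iff.1 h2).2
  rw [← mul_sub, abs_mul, Nat.abs_cast] at h3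
  rw [div_le_iff₀ h1] at hm
  have h4 : (m : ℝ) ≤ n := by exact_mod_cast hn
  nlinarith

def B (a : W ℵ₀ → ℕ → K) (x : N (W ℵ₀) × N ℕ) (n : ℕ) : Set (N (W ℵ₀) × N ℕ) :=
  {y | y = x ∨ (y.1 ∈ U x.1 n ∧ ((Even x.2.1.1 ∧ y.2 ∈ U x.2 n) ∨
    y.2 ∈ cone x.2 {i | n ≤ i.1 ∧ i = a x.1.1.1 i.1}))}

lemma B_sub {a : W ℵ₀ → ℕ → K} {x y : N (W ℵ₀) × N ℕ} {n : ℕ} (h : y ∈ B a x n) :
    y.1 ∈ U x.1 n ∧ y.2 ∈ U x.2 n := by
  rcases h with rfl | ⟨h, h' | h'⟩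
  · exact ⟨Or.inl rfl, Or.inl rfl⟩
  · exact ⟨h, h'.2⟩
  · exact ⟨h, Or.inr ⟨h'.1, h'.2.1⟩⟩

lemma B_anti (a : W ℵ₀ → ℕ → K) (x : N (W ℵ₀) × N ℕ) : Antitone (B a x) := by
  rintro n m h y (rfl | ⟨h1, h2 | h2⟩)
  · exact Or.inl rfl
  · exact Or.inr ⟨U_anti _ h h1, Or.inl ⟨h2.1, U_anti _ h h2.2⟩⟩
  · exact Or.inr ⟨U_anti _ h h1, Or.inr ⟨h2.1, h.trans h2.2.1, h2.2.2⟩⟩

lemma B_open (a : W ℵ₀ → ℕ → K) (x : N (W ℵ₀) × N ℕ) (n : ℕ) :
    ∀ y ∈ B a x n, ∃ m, B a y m ⊆ B a x n := by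
  rintro y (rfl | ⟨h1, h2 | h2⟩)
  · exact ⟨n, subset_rfl⟩
  · exact ⟨n, fun z hz => Or.inr ⟨U_sub h1 (B_sub hz).1, Or.inl ⟨h2.1, U_sub h2.2 (B_sub hz).2⟩⟩⟩
  · exact ⟨n, fun z hz => Or.inr ⟨U_sub h1 (B_sub hz).1, Or.inr (U_cone h2 n (B_sub hz).2)⟩⟩

lemma B_closed {a : W ℵ₀ → ℕ → K} (ha : ∀ α β, α ≠ β → ∃ m, ∀ n, m ≤ n → a α n ≠ a β n)
    (x : N (W ℵ₀) × N ℕ) (n : ℕ) : ∀ y ∉ B a x n, ∃ m, Disjoint (B a y m) (B a x n) := by
  intro y hy
  rcases em (y.1 ∈ U x.1 n) with h1 | h1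
  swap
  · obtain ⟨m, hm⟩ := disj h1
    exact ⟨m, Set.disjoint_left.2 fun z hz hz' =>
      Set.disjoint_left.1 hm (B_sub hz).1 (B_sub hz').1⟩
  rcases em (Even x.2.1.1) with h2 | h2
  · obtain ⟨m, hm⟩ := disj (show y.2 ∉ U x.2 n from fun h => hy (Or.inr ⟨h1, Or.inl ⟨h2, h⟩⟩))
    exact ⟨m, Set.disjoint_left.2 fun z hz hz' =>
      Set.disjoint_left.1 hm (B_sub hz).2 (B_sub hz').2⟩
  rcases em (y.2 = x.2) with h3 | h3
  · have h4 : y.1.1.1 ≠ x.1.1.1 := by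
      rcases h1 with h1 | h1
      · exact absurd (Or.inl (Prod.ext h1 h3)) hy
      · exact h1.1.1.ne'
    obtain ⟨m, hm⟩ := ha _ _ h4
    refine ⟨m, Set.disjoint_left.2 ?_⟩
    rintro z (rfl | ⟨-, h5 | h5⟩) hz
    · exact hy hz
    · exact h2 (h3 ▸ h5.1)
    · rcases hz with rfl | ⟨-, h6 | h6⟩
      · exact (h3 ▸ h5.1 : lt z.2 z.2).irr
      · exact h2 h6.1
      · rw [h3] at h5
        exact hm _ h5.2.1 (h5.2.2.symm.trans h6.2.2)
  · obtain ⟨m, hm⟩ := disj (p := x.2) (q := y.2) (S := {i | n ≤ i.1 ∧ i = a x.1.1.1 i.1}) (by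
      rintro (h | h)
      · exact h3 h
      · exact hy (Or.inr ⟨h1, Or.inr h⟩))
    refine ⟨m, Set.disjoint_left.2 fun z hz hz' => Set.disjoint_left.1 hm (B_sub hz).2 ?_⟩
    rcases hz' with rfl | ⟨-, h6 | h6⟩
    · exact Or.inl rfl
    · exact absurd h6.1 h2
    · exact Or.inr h6

lemma iso {X : Type} [TopologicalSpace X] {F : Set X} (h : DiscreteTopology F) {x : X}
    (hx : x ∈ F) : ∃ V, IsOpen V ∧ V ∩ F = {x} :=
  isDiscrete_iff_forall_mem_exists_isOpen.1 ⟨h⟩ x hx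

theorem big : ∃ (X : Type) (_ : TopologicalSpace X), T35Space X ∧ FirstCountableTopology X ∧
    TopologicalSpace.IsTopologicalBasis {U : Set X | IsClopen U} ∧
    (∃ F : ℕ → Set X, (∀ n, DiscreteTopology (F n)) ∧ Dense (⋃ n, F n)) ∧
    ∃ D : Set X, Dense D ∧ ∀ F : ℕ → Set X, (∀ n, F n ⊆ D ∧ DiscreteTopology (F n)) →
      ¬ Dense (⋃ n, F n) := by
  obtain ⟨a, ha1, ha2⟩ := ad
  letI : TopologicalSpace (N (W ℵ₀) × N ℕ) := mk (B a) (B_anti a)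
  have h0 : ∀ V : Set (N (W ℵ₀) × N ℕ), IsOpen V ↔ ∀ x ∈ V, ∃ n, B a x n ⊆ V := fun _ => Iff.rfl
  obtain ⟨h1, h2, h3⟩ := nice (B a) h0 (fun x n => Or.inl rfl) (B_open a) (B_closed ha2)
    fun x y hxy => by
      rcases em (x.1 = y.1) with h | h
      · obtain ⟨n, hn⟩ := U_sep (show x.2 ≠ y.2 from fun h' => hxy (Prod.ext h h'))
        exact ⟨n, fun h' => hn (B_sub h').2⟩
      · obtain ⟨n, hn⟩ := U_sep h
        exact ⟨n, fun h' => hn (B_sub h').1⟩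
  have key : ∀ x n, ∃ y ∈ B a x n, y.2.1.1 = x.2.1.1 + 1 := fun x n => by
    obtain ⟨q, q1, q2, q3⟩ := succ x.2 (Nat.lt_succ_self _) (a x.1.1.1 n)
    refine ⟨(x.1, q), Or.inr ⟨Or.inl rfl, Or.inr ⟨q2, ?_⟩⟩, q1⟩
    show n ≤ (q.1.2 x.2.1.1).1 ∧ q.1.2 x.2.1.1 = a x.1.1.1 (q.1.2 x.2.1.1).1
    rw [q3, ha1]
    exact ⟨le_rfl, rfl⟩
  have dens : ∀ P : ℕ → Prop, (∀ k, ¬ P k → P (k + 1)) →
      Dense {x : N (W ℵ₀) × N ℕ | P x.2.1.1} := fun P hP => by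
    refine dense_iff_inter_open.2 fun V hV ⟨x, hx⟩ => ?_
    rcases em (P x.2.1.1) with h | h
    · exact ⟨x, hx, h⟩
    · obtain ⟨n, hn⟩ := (h0 V).1 hV x hx
      obtain ⟨y, y1, y2⟩ := key x n
      exact ⟨y, hn y1, by show P _; rw [y2]; exact hP _ h⟩
  haveI : Nonempty (N ℕ) := ⟨⟨(0, 0), fun _ _ => rfl⟩⟩
  refine ⟨N (W ℵ₀) × N ℕ, inferInstance, h1, h2, h3, ?_, {x | Even x.2.1.1},
    dens _ fun k hk => Nat.even_add_one.2 hk, fun F hF hd => ?_⟩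
  · obtain ⟨e, he⟩ := exists_surjective_nat (N ℕ)
    refine ⟨fun n => {x | x.2 = e n ∧ ¬ Even x.2.1.1}, fun n => ?_,
      (dens (fun k => ¬ Even k) fun k hk => by rwa [Nat.even_add_one]).mono fun x hx => ?_⟩
    · refine (isDiscrete_iff_forall_mem_exists_isOpen.2 fun x hx => ⟨B a x 0,
        (h0 _).2 (B_open a x 0), Subset.antisymm ?_ ?_⟩).to_subtype
      · rintro y ⟨rfl | ⟨-, h | h⟩, hy⟩
        · rfl
        · exact absurd h.1 hx.2
        · exact ((hy.1.trans hx.1.symm) ▸ h.1 : lt x.2 x.2).irr.elim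
      · rintro y rfl
        exact ⟨Or.inl rfl, hx⟩
    · obtain ⟨n, hn⟩ := he x.2
      exact mem_iUnion.2 ⟨n, hn.symm, hx⟩
  · have st : ∀ (k : ℕ × N ℕ) (t : N (W ℵ₀)), ∃ s, lt t s ∧ ∀ r, lt s r → (r, k.2) ∉ F k.1 := by
      intro k t
      have up : ∀ (t : N (W ℵ₀)) (i : K), ∃ q, lt t q ∧ q.1.2 t.1.1 = i := fun t i => by
        obtain ⟨β, hβ⟩ := exists_gt le_rfl t.1.1
        obtain ⟨q, -, hq⟩ := succ t hβ i
        exact ⟨q, hq⟩
      rcases em (∃ r, lt t r ∧ (r, k.2) ∈ F k.1) with ⟨r, r1, r2⟩ | h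
      · obtain ⟨V, hV, hV'⟩ := iso (hF k.1).2 r2
        have h4 : (r, k.2) ∈ V := (hV'.symm.subset rfl).1
        obtain ⟨n, hn⟩ := (h0 V).1 hV _ h4
        obtain ⟨q, q1, q2⟩ := up r (n, 0)
        refine ⟨q, r1.trans q1, fun z z1 z2 => ?_⟩
        have h5 : (z, k.2) ∈ V := hn (Or.inr ⟨Or.inr (cone_up ⟨q1, by
          show n ≤ (q.1.2 r.1.1).1; rw [q2]⟩ z1),
          Or.inl ⟨(hF k.1).1 r2, Or.inl rfl⟩⟩)
        have h6 : z = r := congrArg Prod.fst (hV'.subset ⟨h5, z2⟩)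
        exact (h6 ▸ q1.trans z1 : lt r r).irr
      · obtain ⟨q, q1, -⟩ := up t 0
        exact ⟨q, q1, fun r r1 r2 => h ⟨r, q1.trans r1, r2⟩⟩
    choose s s1 s2 using st
    obtain ⟨e, he⟩ := exists_surjective_nat (ℕ × N ℕ)
    obtain ⟨α⟩ : Nonempty (W ℵ₀) := inferInstance
    let t : ℕ → N (W ℵ₀) := fun j => Nat.rec ⟨(α, 0), fun _ _ => rfl⟩ (fun j r => s (e j) r) j
    obtain ⟨r, hr⟩ := chain t fun j => s1 _ _
    have ho : IsOpen {x : N (W ℵ₀) × N ℕ | x.1 ∈ U r 0} := (h0 _).2 fun x hx =>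
      ⟨0, fun y hy => U_sub hx (B_sub hy).1⟩
    obtain ⟨y, y1, y2⟩ := hd.inter_open_nonempty _ ho
      ⟨(r, Classical.arbitrary _), Or.inl rfl⟩
    obtain ⟨k, hk⟩ := mem_iUnion.1 y2
    obtain ⟨j, hj⟩ := he (k, y.2)
    refine s2 (e j) (t j) y.1 ?_ (by rw [hj]; exact hk)
    rcases y1 with h | h
    · rw [h]
      exact hr (j + 1)
    · exact (hr (j + 1)).trans h.1

/-- levels with cofinite traces, each level converging to all lower points -/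
def lev : TopologicalSpace (ℕ × ℕ) :=
  TopologicalSpace.ofClosed {A | ∀ n, {k | (n, k) ∈ A}.Infinite → ∀ p : ℕ × ℕ, p.1 ≤ n → p ∈ A}
    (fun n h => absurd finite_empty h)
    (fun S hS n h p hp A hA => hS hA n
      (Set.Infinite.mono (fun k (hk : (n, k) ∈ ⋂₀ S) => hk A hA) h) p hp)
    (fun A hA C hC n h p hp => by
      rcases Set.infinite_union.1 (show ({k | (n, k) ∈ A} ∪ {k | (n, k) ∈ C}).Infinite from h)
        with h | h
      · exact Or.inl (hA n h p hp)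
      · exact Or.inr (hC n h p hp))

theorem small : ∃ (X : Type) (_ : TopologicalSpace X), Countable X ∧ Infinite X ∧ T1Space X ∧
    SequentialSpace X ∧ ∃ D : ℕ → Set X, (∀ n, Dense (D n)) ∧
      ∀ F : ℕ → Set X, (∀ n, F n ⊆ D n ∧ DiscreteTopology (F n)) → ¬ Dense (⋃ n, F n) := by
  letI := lev
  have hc : ∀ A : Set (ℕ × ℕ), IsClosed A ↔
      ∀ n, {k | (n, k) ∈ A}.Infinite → ∀ p : ℕ × ℕ, p.1 ≤ n → p ∈ A := fun A => by
    rw [← isOpen_compl_iff]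
    show Aᶜᶜ ∈ _ ↔ _
    rw [compl_compl]
    rfl
  have ho : ∀ V : Set (ℕ × ℕ), IsOpen V → ∀ p ∈ V, ∀ n, p.1 ≤ n → {k | (n, k) ∉ V}.Finite :=
    fun V hV p hp n hn => by
      by_contra h
      exact (hc _).1 hV.isClosed_compl n h p hn hp
  refine ⟨ℕ × ℕ, lev, inferInstance, inferInstance, ⟨fun x => (hc _).2 fun n h => ?_⟩,
    ⟨fun A hA => (hc A).2 fun n h p hp => ?_⟩, fun n => {p | n ≤ p.1}, fun n p => ?_,
    fun F hF hd => ?_⟩
  · exact absurd ((finite_singleton x.2).subset fun k hk =>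
      (congrArg Prod.snd (show (n, k) = x from hk) : k = x.2)) h
  · refine hA (x := fun j => (n, h.natEmbedding _ j)) (fun j => (h.natEmbedding _ j).2) ?_
    refine tendsto_nhds.2 fun V hV hpV => ?_
    rw [← Nat.cofinite_eq_atTop]
    exact (ho V hV p hpV n hp).preimage (f := fun j => (h.natEmbedding _ j : ℕ))
      (Subtype.val_injective.comp (h.natEmbedding _).injective).injOn
  · refine (hc _).1 isClosed_closure (max n p.1) ?_ p (le_max_right _ _)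
    exact infinite_univ.mono fun k _ => subset_closure (show n ≤ max n p.1 from le_max_left _ _)
  · have h1 : ∀ n m, {k | (m, k) ∈ F n}.Finite := fun n m => by
      by_contra h
      obtain ⟨k, hk⟩ := Set.Infinite.nonempty h
      obtain ⟨V, hV, hV'⟩ := iso (hF n).2 hk
      refine h (((ho V hV _ (hV'.symm.subset rfl).1 m le_rfl).insert k).subset fun l hl => ?_)
      by_contra h2
      rw [mem_insert_iff, not_or] at h2
      exact h2.1 (congrArg Prod.snd (hV'.subset ⟨not_not.1 h2.2, hl⟩))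
    have h2 : ∀ m, {k | (m, k) ∈ ⋃ n, F n}.Finite := fun m =>
      ((finite_Iic m).biUnion fun n _ => h1 n m).subset fun k hk => by
        obtain ⟨n, hn⟩ := mem_iUnion.1 hk
        exact mem_biUnion (show n ∈ Iic m from (hF n).1 hn) hn
    have h3 : IsClosed (⋃ n, F n) := (hc _).2 fun n h => absurd (h2 n) h
    refine infinite_univ ((h2 0).subset fun k _ => ?_)
    show (0, k) ∈ ⋃ n, F n
    rw [← h3.closure_eq]
    exact hd _

theorem gen {X : Type} [TopologicalSpace X] [T2Space X] [SequentialSpace X] (A : Set X) :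
    ∀ x ∈ closure A, ∃ F ⊆ A, DiscreteTopology F ∧ x ∈ closure F := by
  refine closure_minimal (t := {x | ∃ F ⊆ A, DiscreteTopology F ∧ x ∈ closure F})
    (fun x hx => ⟨{x}, singleton_subset_iff.2 hx, inferInstance, subset_closure rfl⟩)
    (IsSeqClosed.isClosed fun u x hu hx => ?_)
  rcases em (∃ n, u n = x) with ⟨n, rfl⟩ | h
  · exact hu n
  push Not at h
  have st : ∀ (n : ℕ) (V : {V : Set X // IsOpen V ∧ x ∈ V}), ∃ (m : ℕ) (O : Set X)
      (V' : {V : Set X // IsOpen V ∧ x ∈ V}), n ≤ m ∧ IsOpen O ∧ u m ∈ O ∧ O ⊆ V.1 ∧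
        V'.1 ⊆ V.1 ∧ Disjoint O V'.1 := fun n V => by
    obtain ⟨m, m1, m2⟩ := ((eventually_ge_atTop n).and (hx (V.2.1.mem_nhds V.2.2))).exists
    obtain ⟨O, O', o1, o2, o3, o4, o5⟩ := t2_separation (h m)
    exact ⟨m, O ∩ V.1, ⟨O' ∩ V.1, o2.inter V.2.1, o4, V.2.2⟩, m1, o1.inter V.2.1, ⟨o3, m2⟩,
      inter_subset_right, inter_subset_right, o5.mono inter_subset_left inter_subset_left⟩
  choose m O V' s1 s2 s3 s4 s5 s6 using st
  let V : ℕ → {V : Set X // IsOpen V ∧ x ∈ V} := fun n =>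
    Nat.rec ⟨univ, isOpen_univ, trivial⟩ V' n
  have hV : Antitone fun n => (V n).1 := antitone_nat_of_succ_le fun n => s5 n (V n)
  have hd : ∀ i j, i < j → Disjoint (O i (V i)) (O j (V j)) := fun i j hij =>
    (s6 i (V i)).mono_right ((s4 j (V j)).trans (hV (Nat.succ_le_of_lt hij)))
  choose F f1 f2 f3 using hu
  refine ⟨⋃ n, O n (V n) ∩ F (m n (V n)), iUnion_subset fun n => inter_subset_right.trans (f1 _),
    ?_, ?_⟩
  · refine (isDiscrete_iff_forall_mem_exists_isOpen.2 fun y hy => ?_).to_subtype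
    obtain ⟨n, hn⟩ := mem_iUnion.1 hy
    obtain ⟨Z, z1, z2⟩ := iso (f2 _) hn.2
    refine ⟨Z ∩ O n (V n), z1.inter (s2 _ _), Subset.antisymm ?_ ?_⟩
    · rintro z ⟨⟨z3, z4⟩, z5⟩
      obtain ⟨k, hk⟩ := mem_iUnion.1 z5
      rcases lt_trichotomy n k with h1 | rfl | h1
      · exact absurd hk.1 (Set.disjoint_left.1 (hd _ _ h1) z4)
      · exact z2.subset ⟨z3, hk.2⟩
      · exact absurd z4 (Set.disjoint_left.1 (hd _ _ h1) hk.1)
    · rintro z rfl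
      exact ⟨⟨(z2.symm.subset rfl).1, hn.1⟩, hy⟩
  · refine isClosed_closure.mem_of_tendsto
      (hx.comp (tendsto_atTop_mono (fun n => s1 n (V n)) tendsto_id))
      (Eventually.of_forall fun n => ?_)
    exact closure_mono (subset_iUnion (fun n => O n (V n) ∩ F (m n (V n))) n)
      ((s2 _ _).inter_closure ⟨s3 _ _, f3 _⟩)

end Pool.Agent.H.MP_718903_gt
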